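import Pool.Agent.W770.PC.Stms

set_option autoImplicit false

/-! Project PC (helper770), PC-L2: `L²` bounds in space and time. -/

open MeasureTheory Set Filter Topology
open scoped ENNReal NNReal

namespace Pool.Agent.W591.PC

open Pool.Agent.W770.PC

lemma card_grid (a : ℕ) : (grid a).card = (2 ^ a + 1) ^ 2 := by
  rw [grid, Finset.card_product, Finset.card_range, sq]

lemma grid_le (a : ℕ) : ((2 : ℝ) ^ a + 1) ^ 2 ≤ 4 * 4 ^ a := by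
  have h1 : (1 : ℝ) ≤ 2 ^ a := one_le_pow₀ (by norm_num)
  have h2 : (4 : ℝ) ^ a = 2 ^ a * 2 ^ a := by
    rw [← mul_pow]; norm_num
  rw [h2]
  nlinarith

/-- The general estimate: sets of indices depending on time. -/
lemma general (a : ℕ) (K1 M : ℝ) (hK1 : 0 ≤ K1) (hM : 0 ≤ M)
    (S : ℝ → Finset (ℕ × ℕ)) (T : ℕ × ℕ → Set ℝ)
    (hS : ∀ t, S t ⊆ grid a) (hT : ∀ t, ∀ k ∈ S t, t ∈ T k)
    (hTm : ∀ k, MeasurableSet (T k)) (hv : ∀ k ∈ grid a, volume (T k) ≤ ENNReal.ofReal M)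
    (f : (ℝ × ℝ) × ℝ → ℝ≥0∞) (hf : Measurable f)
    (hx : ∀ t, ∫⁻ x, f (x, t) ≤ ENNReal.ofReal (K1 * (4 ^ a)⁻¹ * (S t).card)) :
    ∫⁻ z, f z ≤ ENNReal.ofReal (4 * K1 * M) := by
  classical
  have hc : ∀ t, ENNReal.ofReal (K1 * (4 ^ a)⁻¹ * (S t).card) ≤
      ENNReal.ofReal (K1 * (4 ^ a)⁻¹) * ∑ k ∈ grid a, (T k).indicator (fun _ => (1 : ℝ≥0∞)) t := by
    intro t
    rw [ENNReal.ofReal_mul (by positivity), ENNReal.ofReal_natCast]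
    refine mul_le_mul_right ?_ _
    calc ((S t).card : ℝ≥0∞) = ∑ k ∈ S t, 1 := by simp
      _ ≤ ∑ k ∈ S t, (T k).indicator (fun _ => (1 : ℝ≥0∞)) t := by
          refine Finset.sum_le_sum fun k hk => ?_
          rw [indicator_of_mem (hT t k hk)]
      _ ≤ ∑ k ∈ grid a, (T k).indicator (fun _ => (1 : ℝ≥0∞)) t :=
          Finset.sum_le_sum_of_subset (hS t)
  calc ∫⁻ z, f z = ∫⁻ t, ∫⁻ x, f (x, t) := by
        rw [Measure.volume_eq_prod, lintegral_prod_symm' _ hf]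
    _ ≤ ∫⁻ t, ENNReal.ofReal (K1 * (4 ^ a)⁻¹) *
          ∑ k ∈ grid a, (T k).indicator (fun _ => (1 : ℝ≥0∞)) t :=
        lintegral_mono fun t => (hx t).trans (hc t)
    _ = ENNReal.ofReal (K1 * (4 ^ a)⁻¹) * ∑ k ∈ grid a, volume (T k) := by
        rw [lintegral_const_mul']
        · congr 1
          rw [lintegral_finsetSum' _ fun k _ => (measurable_const.indicator (hTm k)).aemeasurable]
          refine Finset.sum_congr rfl fun k _ => ?_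
          rw [lintegral_indicator (hTm k), setLIntegral_one]
        · exact ENNReal.ofReal_ne_top
    _ ≤ ENNReal.ofReal (K1 * (4 ^ a)⁻¹) * ∑ _k ∈ grid a, ENNReal.ofReal M :=
        mul_le_mul_right (Finset.sum_le_sum hv) _
    _ = ENNReal.ofReal (K1 * (4 ^ a)⁻¹ * ((2 ^ a + 1) ^ 2 * M)) := by
        have e1 : (((2 ^ a + 1) ^ 2 : ℕ) : ℝ≥0∞) = ENNReal.ofReal ((2 ^ a + 1) ^ 2) := by
          rw [← ENNReal.ofReal_natCast]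
          push_cast
          rfl
        rw [Finset.sum_const, card_grid, nsmul_eq_mul, e1,
          ← ENNReal.ofReal_mul (by positivity : (0 : ℝ) ≤ (2 ^ a + 1) ^ 2),
          ← ENNReal.ofReal_mul (by positivity : (0 : ℝ) ≤ K1 * (4 ^ a)⁻¹)]
    _ ≤ ENNReal.ofReal (4 * K1 * M) := by
        refine ENNReal.ofReal_le_ofReal ?_
        have h4 : (0 : ℝ) < 4 ^ a := by positivity
        have h5 := grid_le a
        have h6 : (4 ^ a : ℝ)⁻¹ * (2 ^ a + 1) ^ 2 ≤ 4 := by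
          rw [inv_mul_le_iff₀ h4]
          linarith
        calc K1 * (4 ^ a)⁻¹ * ((2 ^ a + 1) ^ 2 * M) =
            K1 * M * ((4 ^ a : ℝ)⁻¹ * (2 ^ a + 1) ^ 2) := by ring
          _ ≤ K1 * M * 4 := mul_le_mul_of_nonneg_left h6 (by positivity)
          _ = 4 * K1 * M := by ring

lemma KK_sub (C : ℝ) (g : ℝ × ℝ → ℝ) (a b : ℕ) : KK C g a b ⊆ grid a := by
  classical
  unfold KK
  exact Finset.filter_subset _ _

lemma KK_mem (C : ℝ) (g : ℝ × ℝ → ℝ) (a b : ℕ) (k : ℕ × ℕ) (hk : k ∈ KK C g a b) :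
    NN g a k ≤ 1 ∧ 1 ≤ C * NN g a k ∧ DD g a k ≤ 2 ^ b := by
  classical
  unfold KK at hk
  have h := (Finset.mem_filter.1 hk).2
  exact ⟨h.1, h.2.1, h.2.2.1⟩

lemma FL_sub (g : ℝ × ℝ → ℝ) (a : ℕ) : FL g a ⊆ grid a := by
  classical
  unfold FL
  exact Finset.filter_subset _ _

lemma FL_mem (g : ℝ × ℝ → ℝ) (a : ℕ) (k : ℕ × ℕ) (hk : k ∈ FL g a) : NN g a k ≤ 1 := by
  classical
  unfold FL at hk
  exact (Finset.mem_filter.1 hk).2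

lemma meas_T (C : ℝ) (F h : ℝ × ℝ → ℝ) (a b : ℕ) (k : ℕ × ℕ)
    (m1 : Continuous (fun t : ℝ => NN (ph F h t) a k))
    (m2 : Continuous (fun t : ℝ => DD (ph F h t) a k)) :
    MeasurableSet {t : ℝ | NN (ph F h t) a k ≤ 1 ∧ 1 ≤ C * NN (ph F h t) a k ∧
        DD (ph F h t) a k ≤ 2 ^ b} :=
  ((isClosed_le m1 continuous_const).inter
    ((isClosed_le continuous_const (continuous_const.mul m1)).inter
      (isClosed_le m2 continuous_const))).measurableSet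

lemma part1 (C B K1 K2 : ℝ) (hK1 : 0 ≤ K1) (hK2 : 0 ≤ K2)
    (hx : ∀ (ψ : ℝ × ℝ → ℂ) (g : ℝ × ℝ → ℝ), Amp B ψ →
      ContDiff ℝ (⊤ : ℕ∞) g → ∀ (a : ℕ) (S : Finset (ℕ × ℕ)), S ⊆ grid a →
      ∫⁻ x, ‖∑ k ∈ S, J ψ g a k x‖ₑ ^ 2 ≤ ENNReal.ofReal (K1 * (4 ^ a)⁻¹ * S.card))
    (ψ : ℝ × ℝ → ℂ) (F h : ℝ × ℝ → ℝ) (hψ : Amp B ψ)
    (a b : ℕ)
    (ht : ∀ k ∈ grid a,
      volume {t : ℝ | NN (ph F h t) a k ≤ 1 ∧ 1 ≤ C * NN (ph F h t) a k ∧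
        DD (ph F h t) a k ≤ 2 ^ b} ≤ ENNReal.ofReal (K2 * 2 ^ b))
    (hsm : ∀ t : ℝ, ContDiff ℝ (⊤ : ℕ∞) (ph F h t))
    (m1 : ∀ (k : ℕ × ℕ), Continuous (fun t : ℝ => NN (ph F h t) a k))
    (m2 : ∀ (k : ℕ × ℕ), Continuous (fun t : ℝ => DD (ph F h t) a k))
    (m4 : Measurable (fun z : (ℝ × ℝ) × ℝ => uu C ψ (ph F h z.2) a b z.1)) :
    ∫⁻ z : (ℝ × ℝ) × ℝ, ‖uu C ψ (ph F h z.2) a b z.1‖ₑ ^ 2 ≤
      ENNReal.ofReal (4 * K1 * (K2 * 2 ^ b)) := by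
  have hf : Measurable (fun z : (ℝ × ℝ) × ℝ => ‖uu C ψ (ph F h z.2) a b z.1‖ₑ ^ 2) :=
    m4.enorm.pow_const 2
  have hM : 0 ≤ K2 * 2 ^ b := by positivity
  refine general a K1 (K2 * 2 ^ b) hK1 hM (fun t => KK C (ph F h t) a b)
    (fun k => {t : ℝ | NN (ph F h t) a k ≤ 1 ∧ 1 ≤ C * NN (ph F h t) a k ∧
      DD (ph F h t) a k ≤ 2 ^ b}) (fun t => KK_sub _ _ _ _)
      (fun t k hk => KK_mem C (ph F h t) a b k hk) (fun k => meas_T C F h a b k (m1 k) (m2 k))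
      ht _ hf (fun t => ?_)
  exact hx ψ (ph F h t) hψ (hsm t) a (KK C (ph F h t) a b) (KK_sub _ _ _ _)

lemma part2 (C B K1 : ℝ) (hK1 : 0 ≤ K1)
    (hx : ∀ (ψ : ℝ × ℝ → ℂ) (g : ℝ × ℝ → ℝ), Amp B ψ →
      ContDiff ℝ (⊤ : ℕ∞) g → ∀ (a : ℕ) (S : Finset (ℕ × ℕ)), S ⊆ grid a →
      ∫⁻ x, ‖∑ k ∈ S, J ψ g a k x‖ₑ ^ 2 ≤ ENNReal.ofReal (K1 * (4 ^ a)⁻¹ * S.card))
    (ψ : ℝ × ℝ → ℂ) (F h : ℝ × ℝ → ℝ) (hψ : Amp B ψ)
    (ht : ∀ k ∈ grid 0,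
      volume {t : ℝ | NN (ph F h t) 0 k ≤ 1} ≤ ENNReal.ofReal C)
    (hsm : ∀ t : ℝ, ContDiff ℝ (⊤ : ℕ∞) (ph F h t))
    (m1 : ∀ (k : ℕ × ℕ), Continuous (fun t : ℝ => NN (ph F h t) 0 k))
    (m5 : Measurable (fun z : (ℝ × ℝ) × ℝ => uz ψ (ph F h z.2) z.1)) :
    ∫⁻ z : (ℝ × ℝ) × ℝ, ‖uz ψ (ph F h z.2) z.1‖ₑ ^ 2 ≤
      ENNReal.ofReal (4 * K1 * |C|) := by
  have hf : Measurable (fun z : (ℝ × ℝ) × ℝ => ‖uz ψ (ph F h z.2) z.1‖ₑ ^ 2) :=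
    m5.enorm.pow_const 2
  refine general 0 K1 |C| hK1 (abs_nonneg C) (fun t => FL (ph F h t) 0)
    (fun k => {t : ℝ | NN (ph F h t) 0 k ≤ 1}) (fun t => FL_sub _ _)
      (fun t k hk => FL_mem (ph F h t) 0 k hk)
      (fun k => (isClosed_le (m1 k) continuous_const).measurableSet)
      (fun k hk => (ht k hk).trans (ENNReal.ofReal_le_ofReal (le_abs_self C))) _ hf (fun t => ?_)
  exact hx ψ (ph F h t) hψ (hsm t) 0 (FL (ph F h t) 0) (FL_sub _ _)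

theorem L2_thm (h1 : S_time) (h2 : S_L2x) (h3 : S_meas) (_h4 : S_cell) : S_L2 := by
  intro C B
  obtain ⟨K1, hK1, hx⟩ := h2 B
  obtain ⟨K2, hK2, ht⟩ := h1 C
  refine ⟨4 * K1 * K2 + 4 * K1 * |C|, by positivity, ?_⟩
  intro ψ F h hψ hT
  obtain ⟨m1, m2, m3, m4, m5⟩ := h3 C B ψ F h hψ hT.smF hT.smh
  have hsm : ∀ t : ℝ, ContDiff ℝ (⊤ : ℕ∞) (ph F h t) := fun t =>
    hT.smF.add (contDiff_const.mul hT.smh)
  constructor
  · intro a b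
    refine (part1 C B K1 K2 hK1 hK2 hx ψ F h hψ a b (ht F h hT a b) hsm (m1 a) (m2 a)
      (m4 a b)).trans (ENNReal.ofReal_le_ofReal ?_)
    have h5 : (0 : ℝ) ≤ 4 * K1 * |C| * 2 ^ b := by positivity
    calc 4 * K1 * (K2 * 2 ^ b) = 4 * K1 * K2 * 2 ^ b := by ring
      _ ≤ (4 * K1 * K2 + 4 * K1 * |C|) * 2 ^ b := by linarith
  · refine (part2 C B K1 hK1 hx ψ F h hψ hT.tzero hsm (m1 0) m5).trans
      (ENNReal.ofReal_le_ofReal ?_)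
    have h5 : (0 : ℝ) ≤ 4 * K1 * K2 := by positivity
    linarith

end Pool.Agent.W591.PC
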