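import Pool.Agent.W770.PC.SphStms

set_option autoImplicit false

/-! Project PC (helper770), PC-sph: all polynomial chirps on the sphere. -/

open MeasureTheory Set Filter Topology
open scoped ENNReal NNReal RealInnerProductSpace

namespace Pool.Agent.W591.PC

open Pool.Agent.W770.PC
open Pool.Agent.H789R2.FR (E sg)

/-! ### The surface measure -/

instance sg_fin : IsFiniteMeasure (sg 3) := by
  unfold sg
  infer_instance

lemma sg_eq : sg 3 = ((volume : Measure (E 3)).toSphere univ) • Pool.Agent.Helper36.SphMeas.sph 3 := by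
  rw [Pool.Agent.Helper36.SphMeas.sph, smul_smul, ENNReal.mul_inv_cancel, one_smul]
  · rfl
  · exact Pool.Agent.Helper36.SphMeas.toSphere_univ_ne_zero (by norm_num)
  · exact measure_ne_top _ _

lemma sg_inv (T : E 3 ≃ₗᵢ[ℝ] E 3) : MeasurePreserving T (sg 3) (sg 3) := by
  rw [sg_eq]
  exact (Pool.Agent.Helper36.SphMeas.sph_inv T).smul_measure _

lemma sg_ae : ∀ᵐ x ∂(sg 3), ‖x‖ = 1 := by
  rw [sg_eq]
  exact Measure.ae_smul_measure Pool.Agent.Helper36.SphMeas.sph_ae _

lemma sg_int (g : E 3 → ℂ) (hg : Continuous g) : Integrable g (sg 3) := by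
  unfold sg
  rw [(MeasurableEmbedding.subtype_coe Metric.isClosed_sphere.measurableSet).integrable_map_iff]
  exact (hg.comp continuous_subtype_val).integrable_of_hasCompactSupport
    (HasCompactSupport.of_compactSpace _)

/-! ### The Fourier transform -/

lemma ee_norm (r : ℝ) : ‖ee r‖ = 1 := Complex.norm_exp_ofReal_mul_I r

lemma ee_cont : Continuous ee := by
  unfold ee
  fun_prop

lemma SF_cont (g : E 3 → ℂ) (hg : Integrable g (sg 3)) : Continuous (SF g) := by
  unfold SF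
  refine continuous_of_dominated (bound := fun x => ‖g x‖) ?_ ?_ hg.norm ?_
  · intro ξ
    refine AEStronglyMeasurable.mul ?_ hg.1
    exact (ee_cont.comp (by fun_prop)).aestronglyMeasurable
  · intro ξ
    refine Eventually.of_forall fun x => ?_
    rw [norm_mul, ee_norm, one_mul]
  · refine Eventually.of_forall fun x => ?_
    exact (ee_cont.comp (by fun_prop)).mul continuous_const

/-! ### Polynomials -/

lemma totalDegree_bind (P : MvPolynomial (Fin 3) ℝ) (f : Fin 3 → MvPolynomial (Fin 3) ℝ)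
    (hf : ∀ i, (f i).totalDegree ≤ 1) :
    (MvPolynomial.bind₁ f P).totalDegree ≤ P.totalDegree := by
  have e : MvPolynomial.bind₁ f P =
      ∑ s ∈ P.support, MvPolynomial.C (P.coeff s) * ∏ i, f i ^ s i := by
    rw [MvPolynomial.bind₁, MvPolynomial.aeval_def, MvPolynomial.eval₂_eq']
    rfl
  rw [e]
  refine MvPolynomial.totalDegree_finsetSum_le fun s hs => ?_
  refine (MvPolynomial.totalDegree_mul _ _).trans ?_
  rw [MvPolynomial.totalDegree_C, zero_add]
  refine (MvPolynomial.totalDegree_finsetProd _ _).trans ?_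
  refine le_trans ?_ (MvPolynomial.le_totalDegree hs)
  rw [Finsupp.sum_fintype _ _ (fun _ => rfl)]
  refine Finset.sum_le_sum fun i _ => ?_
  refine (MvPolynomial.totalDegree_pow _ _).trans ?_
  calc s i * (f i).totalDegree ≤ s i * 1 := Nat.mul_le_mul_left _ (hf i)
    _ = s i := mul_one _

/-- The rotated polynomial. -/
noncomputable def rot (ρ : E 3 ≃ₗᵢ[ℝ] E 3) (P : MvPolynomial (Fin 3) ℝ) :
    MvPolynomial (Fin 3) ℝ :=
  MvPolynomial.bind₁ (fun j => ∑ k : Fin 3,
    MvPolynomial.C ((ρ (EuclideanSpace.single k 1)) j) * MvPolynomial.X k) P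

lemma rot_deg (ρ : E 3 ≃ₗᵢ[ℝ] E 3) (P : MvPolynomial (Fin 3) ℝ) :
    (rot ρ P).totalDegree ≤ P.totalDegree := by
  refine totalDegree_bind P _ fun j => ?_
  refine MvPolynomial.totalDegree_finsetSum_le fun k _ => ?_
  refine (MvPolynomial.totalDegree_mul _ _).trans ?_
  rw [MvPolynomial.totalDegree_C, MvPolynomial.totalDegree_X]

lemma expand (x : E 3) : x = ∑ k : Fin 3, x k • EuclideanSpace.single k (1 : ℝ) := by
  ext i
  fin_cases i <;> simp [Fin.sum_univ_three]

lemma rot_eval (ρ : E 3 ≃ₗᵢ[ℝ] E 3) (P : MvPolynomial (Fin 3) ℝ) (x : E 3) :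
    MvPolynomial.eval (fun i => x i) (rot ρ P) = MvPolynomial.eval (fun i => (ρ x) i) P := by
  change MvPolynomial.eval₂Hom (RingHom.id ℝ) _ (MvPolynomial.bind₁ _ P) = _
  rw [MvPolynomial.eval₂Hom_bind₁]
  change MvPolynomial.eval _ P = _
  congr 1
  congr 1
  funext j
  change MvPolynomial.eval _ _ = _
  conv_rhs => rw [expand x]
  rw [map_sum, map_sum, WithLp.ofLp_sum, Finset.sum_apply]
  refine Finset.sum_congr rfl fun k _ => ?_
  rw [map_mul, MvPolynomial.eval_C, MvPolynomial.eval_X, map_smul, mul_comm]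
  rfl

lemma pe_rot (ρ : E 3 ≃ₗᵢ[ℝ] E 3) (P : MvPolynomial (Fin 3) ℝ) (x : E 3) :
    pe (rot ρ P) x = pe P (ρ x) := by
  rw [pe, pe, rot_eval]

lemma pe_cont (P : MvPolynomial (Fin 3) ℝ) : Continuous (pe P) := by
  unfold pe
  exact ee_cont.comp ((MvPolynomial.continuous_eval P).comp (by fun_prop))

/-! ### The rotated pieces -/

lemma SF_rot (ρ : E 3 ≃ₗᵢ[ℝ] E 3) (χ : E 3 → ℝ) (P : MvPolynomial (Fin 3) ℝ) (ξ : E 3) :
    ∫ x, ee (-(2 * Real.pi * ⟪x, ξ⟫)) * (((χ (ρ.symm x) : ℝ) : ℂ) * pe P x) ∂(sg 3) =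
      SF (fun x => ((χ x : ℝ) : ℂ) * pe (rot ρ P) x) (ρ.symm ξ) := by
  rw [← (sg_inv ρ).integral_comp ρ.toHomeomorph.measurableEmbedding, SF]
  refine integral_congr_ae (Eventually.of_forall fun x => ?_)
  simp only
  rw [pe_rot, ρ.symm_apply_apply]
  have h : ⟪ρ x, ξ⟫ = ⟪x, ρ.symm ξ⟫ := by
    conv_lhs => rw [← ρ.apply_symm_apply ξ]
    exact ρ.inner_map_map _ _
  rw [h]

lemma SF_sum {n : ℕ} (ρ : Fin n → (E 3 ≃ₗᵢ[ℝ] E 3)) (χ : Fin n → E 3 → ℝ)
    (hχ : ∀ i, Continuous (χ i)) (h1 : ∀ x : E 3, ‖x‖ = 1 → ∑ i, χ i ((ρ i).symm x) = 1)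
    (P : MvPolynomial (Fin 3) ℝ) :
    SF (pe P) = ∑ i, (SF (fun x => ((χ i x : ℝ) : ℂ) * pe (rot (ρ i) P) x)) ∘ (ρ i).symm := by
  funext ξ
  rw [Finset.sum_apply]
  simp only [Function.comp_apply]
  simp_rw [← SF_rot]
  rw [← integral_finsetSum, SF]
  · refine integral_congr_ae ?_
    filter_upwards [sg_ae] with x hx
    rw [← Finset.mul_sum, ← Finset.sum_mul]
    have h2 : ∑ i, ((χ i ((ρ i).symm x) : ℝ) : ℂ) = 1 := by
      rw [← Complex.ofReal_sum, h1 x hx, Complex.ofReal_one]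
    rw [h2, one_mul]
  · intro i _
    refine sg_int _ ?_
    refine (ee_cont.comp (by fun_prop)).mul ?_
    exact (Complex.continuous_ofReal.comp ((hχ i).comp (ρ i).symm.continuous)).mul (pe_cont P)

theorem sph_thm (h1 : S_sph1) (h2 : S_cover) : S_sph := by
  intro D p hp
  obtain ⟨n, ρ, χ, hχ, hsum⟩ := h2
  choose K hK0 hK using fun i => h1 D p (χ i) hp (hχ i)
  refine ⟨∑ i, K i, Finset.sum_nonneg fun i _ => hK0 i, ?_⟩
  intro P hP
  rw [SF_sum ρ χ (fun i => (hχ i).1.continuous) hsum P]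
  have hp1 : (1 : ℝ≥0∞) ≤ ENNReal.ofReal p := by
    rw [← ENNReal.ofReal_one]
    exact ENNReal.ofReal_le_ofReal (by linarith)
  have hc : ∀ i, Continuous (SF (fun x => ((χ i x : ℝ) : ℂ) * pe (rot (ρ i) P) x)) := by
    intro i
    refine SF_cont _ (sg_int _ ?_)
    exact (Complex.continuous_ofReal.comp (hχ i).1.continuous).mul (pe_cont _)
  refine (eLpNorm_sum_le (fun i _ => ?_) hp1).trans ?_
  · exact ((hc i).comp (ρ i).symm.continuous).aestronglyMeasurable
  · rw [ENNReal.ofReal_sum_of_nonneg fun i _ => hK0 i]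
    refine Finset.sum_le_sum fun i _ => ?_
    rw [eLpNorm_comp_measurePreserving (hc i).aestronglyMeasurable
      (ρ i).symm.measurePreserving]
    exact hK i _ ((rot_deg (ρ i) P).trans hP)

end Pool.Agent.W591.PC
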